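import Pool.Agent.H19.TM.Stm
import Pool.Graph.R_pool_sql_team_seeded_1acbe0a2.Y845.GM.CF
import Pool.Graph.R_pool_sql_team_seeded_1acbe0a2.Y340.GM.Sign

/-!
# Project TM: random signs (modules RAD1, RAD2, RAD3, CMP)
-/

set_option autoImplicit false

namespace Pool.Agent.H61.TM

open Finset Pool.Agent.Y862.GM Pool.Agent.H19.TM

/-- the product of the signs along a tuple, by values -/
lemma prod_sg (U : Finset ℕ) (L K : ℕ) (g : Fin K → ℕ) (hg : ∀ i, g i ∈ Ioc 0 L) :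
    ∏ i, sg U (g i) = ∏ h ∈ Ioc 0 L, sg U h ^ (univ.filter (fun i => g i = h)).card := by
  rw [Finset.prod_comp (sg U) g]
  refine Finset.prod_subset ?_ ?_
  · intro h hh
    rw [mem_image] at hh
    obtain ⟨i, -, rfl⟩ := hh
    exact hg i
  · intro h _ hh
    have h0 : (univ.filter (fun i => g i = h)) = ∅ := by
      rw [filter_eq_empty_iff]
      intro i _ hi
      exact hh (mem_image.2 ⟨i, mem_univ _, hi⟩)
    rw [h0]
    simp

lemma pw_mul_prod (d : ℝ) (L : ℕ) (U : Finset ℕ) (c : ℕ → ℕ) :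
    pw d L U * ∏ h ∈ Ioc 0 L, sg U h ^ c h =
      ∏ h ∈ Ioc 0 L, (if h ∈ U then (1 + d) / 2 else (1 - d) / 2 * (-1) ^ c h) := by
  unfold pw
  rw [← prod_mul_distrib]
  refine prod_congr rfl fun h _ => ?_
  unfold sg
  split_ifs
  · simp
  · rfl

theorem t_RAD1 : S_RAD1 := by
  intro d L K g hg
  have h1 : ∀ U ∈ (Ioc 0 L).powerset, pw d L U * ∏ i, sg U (g i) =
      ∏ h ∈ Ioc 0 L, (if h ∈ U then (1 + d) / 2 else
        (1 - d) / 2 * (-1) ^ (univ.filter (fun i => g i = h)).card) := by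
    intro U _
    rw [prod_sg U L K g hg, pw_mul_prod]
  rw [sum_congr rfl h1, Pool.Agent.Y845.GM.sum_powerset_prod (Ioc 0 L) (fun _ => (1 + d) / 2)
    (fun h => (1 - d) / 2 * (-1) ^ (univ.filter (fun i => g i = h)).card)]
  have h2 : ∀ h ∈ Ioc 0 L, (1 + d) / 2 + (1 - d) / 2 * (-1) ^ (univ.filter (fun i => g i = h)).card =
      if Odd (univ.filter (fun i => g i = h)).card then d else 1 := by
    intro h _
    split_ifs with ho
    · rw [ho.neg_one_pow]
      ring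
    · rw [(Nat.not_odd_iff_even.1 ho).neg_one_pow]
      ring
  rw [prod_congr rfl h2, prod_ite]
  simp only [prod_const, one_pow, mul_one]
  congr 1
  congr 1
  ext h
  simp only [odd, mem_filter, mem_image]
  constructor
  · rintro ⟨_, ho⟩
    refine ⟨?_, ho⟩
    have hne : (univ.filter (fun i => g i = h)).Nonempty := by
      rw [nonempty_iff_ne_empty]
      intro he
      rw [he] at ho
      simp at ho
    obtain ⟨i, hi⟩ := hne
    exact ⟨i, mem_univ _, (mem_filter.1 hi).2⟩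
  · rintro ⟨⟨i, _, rfl⟩, ho⟩
    exact ⟨hg i, ho⟩

lemma exp_le_add_exp_sq (x : ℝ) : Real.exp x ≤ x + Real.exp (x ^ 2) := by
  have h0 : x ^ 2 + 1 ≤ Real.exp (x ^ 2) := Real.add_one_le_exp _
  rcases le_or_gt |x| 1 with h | h
  · have h1 := Real.abs_exp_sub_one_sub_id_le h
    have h2 := (abs_le.1 h1).2
    linarith
  · rcases lt_abs.1 h with h1 | h1
    · have h2 : Real.exp x ≤ Real.exp (x ^ 2) := Real.exp_le_exp.2 (by nlinarith)
      linarith
    · have h2 : Real.exp x ≤ 1 := Real.exp_le_one_iff.2 (by linarith)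
      nlinarith

lemma factor_le (d c : ℝ) (hd0 : 0 ≤ d) (hd1 : d ≤ 1) :
    (1 + d) / 2 * Real.exp (c * (1 - d)) + (1 - d) / 2 * Real.exp (c * (-1 - d)) ≤
      Real.exp (4 * c ^ 2) := by
  have h1 := exp_le_add_exp_sq (c * (1 - d))
  have h2 := exp_le_add_exp_sq (c * (-1 - d))
  have h3 : Real.exp ((c * (1 - d)) ^ 2) ≤ Real.exp (4 * c ^ 2) := by
    apply Real.exp_le_exp.2
    rw [mul_pow]
    have : (1 - d) ^ 2 ≤ 4 := by nlinarith
    nlinarith [sq_nonneg c]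
  have h4 : Real.exp ((c * (-1 - d)) ^ 2) ≤ Real.exp (4 * c ^ 2) := by
    apply Real.exp_le_exp.2
    rw [mul_pow]
    have : (-1 - d) ^ 2 ≤ 4 := by nlinarith
    nlinarith [sq_nonneg c]
  have h5 : 0 ≤ (1 + d) / 2 := by linarith
  have h6 : 0 ≤ (1 - d) / 2 := by linarith
  calc (1 + d) / 2 * Real.exp (c * (1 - d)) + (1 - d) / 2 * Real.exp (c * (-1 - d))
      ≤ (1 + d) / 2 * (c * (1 - d) + Real.exp (4 * c ^ 2)) +
        (1 - d) / 2 * (c * (-1 - d) + Real.exp (4 * c ^ 2)) :=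
        add_le_add (mul_le_mul_of_nonneg_left (by linarith) h5)
          (mul_le_mul_of_nonneg_left (by linarith) h6)
    _ = Real.exp (4 * c ^ 2) := by ring

lemma pw_nonneg (d : ℝ) (hd0 : 0 ≤ d) (hd1 : d ≤ 1) (L : ℕ) (U : Finset ℕ) : 0 ≤ pw d L U := by
  unfold pw
  refine prod_nonneg fun h _ => ?_
  split_ifs <;> linarith

/-- the exponential moments -/
lemma exp_moment (d : ℝ) (L : ℕ) (a : ℕ → ℝ) (hd0 : 0 ≤ d) (hd1 : d ≤ 1) :
    ∑ U ∈ (Ioc 0 L).powerset, pw d L U * Real.exp (∑ h ∈ Ioc 0 L, a h * (sg U h - d)) ≤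
      Real.exp (4 * ∑ h ∈ Ioc 0 L, a h ^ 2) := by
  have h1 : ∀ U ∈ (Ioc 0 L).powerset,
      pw d L U * Real.exp (∑ h ∈ Ioc 0 L, a h * (sg U h - d)) =
      ∏ h ∈ Ioc 0 L, (if h ∈ U then (1 + d) / 2 * Real.exp (a h * (1 - d)) else
        (1 - d) / 2 * Real.exp (a h * (-1 - d))) := by
    intro U _
    unfold pw
    rw [Real.exp_sum, ← prod_mul_distrib]
    refine prod_congr rfl fun h _ => ?_
    unfold sg
    split_ifs <;> rfl
  rw [sum_congr rfl h1, Pool.Agent.Y845.GM.sum_powerset_prod (Ioc 0 L)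
    (fun h => (1 + d) / 2 * Real.exp (a h * (1 - d)))
    (fun h => (1 - d) / 2 * Real.exp (a h * (-1 - d))), mul_sum, Real.exp_sum]
  refine prod_le_prod (fun h _ => ?_) (fun h _ => factor_le d (a h) hd0 hd1)
  have h5 : 0 ≤ (1 + d) / 2 := by linarith
  have h6 : 0 ≤ (1 - d) / 2 := by linarith
  positivity

lemma pow_le_exp (x : ℝ) (m : ℕ) :
    x ^ (2 * m) ≤ (2 * m).factorial * (Real.exp x + Real.exp (-x)) := by
  have h1 := Real.pow_div_factorial_le_exp |x| (abs_nonneg x) (2 * m)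
  have h2 : |x| ^ (2 * m) = x ^ (2 * m) := by
    rw [pow_mul, sq_abs, ← pow_mul]
  have h3 : Real.exp |x| ≤ Real.exp x + Real.exp (-x) := by
    rcases abs_choice x with h | h
    · rw [h]; linarith [Real.exp_pos (-x)]
    · rw [h]; linarith [Real.exp_pos x]
  have hf : (0 : ℝ) < (2 * m).factorial := by exact_mod_cast Nat.factorial_pos _
  rw [h2, div_le_iff₀ hf] at h1
  calc x ^ (2 * m) ≤ Real.exp |x| * (2 * m).factorial := h1
    _ ≤ (Real.exp x + Real.exp (-x)) * (2 * m).factorial :=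
        mul_le_mul_of_nonneg_right h3 hf.le
    _ = _ := mul_comm _ _

theorem t_RAD2 : S_RAD2 := by
  intro d L m a hd0 hd1
  have hf : (0 : ℝ) < (2 * m).factorial := by exact_mod_cast Nat.factorial_pos _
  rw [le_div_iff₀ (by positivity), sum_mul]
  have hp := exp_moment d L (fun h => 8 * a h) hd0 hd1
  have hn := exp_moment d L (fun h => -(8 * a h)) hd0 hd1
  have e1 : 4 * ∑ h ∈ Ioc 0 L, (8 * a h) ^ 2 = 256 * ∑ h ∈ Ioc 0 L, a h ^ 2 := by
    rw [mul_sum, mul_sum]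
    refine sum_congr rfl fun h _ => ?_
    ring
  have e2 : 4 * ∑ h ∈ Ioc 0 L, (-(8 * a h)) ^ 2 = 256 * ∑ h ∈ Ioc 0 L, a h ^ 2 := by
    rw [mul_sum, mul_sum]
    refine sum_congr rfl fun h _ => ?_
    ring
  rw [e1] at hp
  rw [e2] at hn
  calc ∑ U ∈ (Ioc 0 L).powerset, pw d L U * (∑ h ∈ Ioc 0 L, a h * (sg U h - d)) ^ (2 * m) *
        8 ^ (2 * m)
      ≤ ∑ U ∈ (Ioc 0 L).powerset, (2 * m).factorial *
        (pw d L U * Real.exp (∑ h ∈ Ioc 0 L, 8 * a h * (sg U h - d)) +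
         pw d L U * Real.exp (∑ h ∈ Ioc 0 L, -(8 * a h) * (sg U h - d))) := by
        refine sum_le_sum fun U _ => ?_
        have h1 := pow_le_exp (8 * ∑ h ∈ Ioc 0 L, a h * (sg U h - d)) m
        have h2 : 8 * ∑ h ∈ Ioc 0 L, a h * (sg U h - d) =
            ∑ h ∈ Ioc 0 L, 8 * a h * (sg U h - d) := by
          rw [mul_sum]
          exact sum_congr rfl fun h _ => by ring
        have h3 : -(8 * ∑ h ∈ Ioc 0 L, a h * (sg U h - d)) =
            ∑ h ∈ Ioc 0 L, -(8 * a h) * (sg U h - d) := by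
          rw [h2, ← sum_neg_distrib]
          exact sum_congr rfl fun h _ => by ring
        rw [h3, h2] at h1
        have h4 : (∑ h ∈ Ioc 0 L, 8 * a h * (sg U h - d)) ^ (2 * m) =
            (∑ h ∈ Ioc 0 L, a h * (sg U h - d)) ^ (2 * m) * 8 ^ (2 * m) := by
          rw [← h2, mul_pow]
          ring
        rw [h4] at h1
        have h5 := mul_le_mul_of_nonneg_left h1 (pw_nonneg d hd0 hd1 L U)
        calc pw d L U * (∑ h ∈ Ioc 0 L, a h * (sg U h - d)) ^ (2 * m) * 8 ^ (2 * m)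
            = pw d L U * ((∑ h ∈ Ioc 0 L, a h * (sg U h - d)) ^ (2 * m) * 8 ^ (2 * m)) := by ring
          _ ≤ _ := h5
          _ = _ := by ring
    _ = (2 * m).factorial *
        ((∑ U ∈ (Ioc 0 L).powerset, pw d L U * Real.exp (∑ h ∈ Ioc 0 L, 8 * a h * (sg U h - d))) +
         ∑ U ∈ (Ioc 0 L).powerset, pw d L U *
          Real.exp (∑ h ∈ Ioc 0 L, -(8 * a h) * (sg U h - d))) := by
        rw [← mul_sum, sum_add_distrib]
    _ ≤ (2 * m).factorial * (Real.exp (256 * ∑ h ∈ Ioc 0 L, a h ^ 2) +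
          Real.exp (256 * ∑ h ∈ Ioc 0 L, a h ^ 2)) :=
        mul_le_mul_of_nonneg_left (add_le_add hp hn) hf.le
    _ = (2 * m).factorial * (2 * Real.exp (256 * ∑ h ∈ Ioc 0 L, a h ^ 2)) := by ring

theorem t_RAD3 : S_RAD3 := by
  intro d L a
  have h1 : ∀ U ∈ (Ioc 0 L).powerset, (pw d L U : ℂ) *
      Complex.exp (Complex.I * ((∑ h ∈ Ioc 0 L, a h * sg U h : ℝ) : ℂ)) =
      ∏ h ∈ Ioc 0 L, (if h ∈ U then (1 + (d : ℂ)) / 2 * Complex.exp (a h * Complex.I) else
        (1 - (d : ℂ)) / 2 * Complex.exp (-(a h * Complex.I))) := by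
    intro U _
    unfold pw
    push_cast
    rw [mul_sum, Complex.exp_sum, ← prod_mul_distrib]
    refine prod_congr rfl fun h _ => ?_
    unfold sg
    split_ifs
    · push_cast
      ring_nf
    · push_cast
      ring_nf
  rw [sum_congr rfl h1, Pool.Agent.Y845.GM.sum_powerset_prod (Ioc 0 L)
    (fun h => (1 + (d : ℂ)) / 2 * Complex.exp (a h * Complex.I))
    (fun h => (1 - (d : ℂ)) / 2 * Complex.exp (-(a h * Complex.I)))]
  refine prod_congr rfl fun h _ => ?_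
  push_cast
  have e1 : Complex.exp (a h * Complex.I) = Complex.cos (a h) + Complex.sin (a h) * Complex.I :=
    Complex.exp_mul_I _
  have e2 : Complex.exp (-(a h * Complex.I)) =
      Complex.cos (a h) - Complex.sin (a h) * Complex.I := by
    have := Complex.exp_mul_I (-(a h : ℂ))
    rw [Complex.cos_neg, Complex.sin_neg] at this
    rw [← neg_mul, this]
    ring
  rw [e1, e2]
  ring

theorem t_CMP : S_CMP := by
  intro Om L j f₁ f₂ v d C c₀ η hv hη h
  have hC : 0 ≤ C := (abs_nonneg _).trans (hv 0)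
  set G : (i : ℕ) → Finset (Fin i → ℕ) := fun i => Fintype.piFinset (fun _ : Fin i => Ioc 0 L)
    with hG
  have hGm : ∀ i, ∀ g ∈ G i, ∀ l, g l ∈ Ioc 0 L := by
    intro i g hg l
    exact (Fintype.mem_piFinset.1 hg) l
  -- first moment
  have e1 : ∑ x ∈ Om, (∑ h ∈ Ioc 0 L, v h * f₁ x h - c₀) ^ j =
      ∑ i ∈ range (j + 1), (j.choose i : ℝ) * (-c₀) ^ (j - i) *
        ∑ g ∈ G i, (∏ l, v (g l)) * ∑ x ∈ Om, ∏ l, f₁ x (g l) := by
    have : ∀ x ∈ Om, (∑ h ∈ Ioc 0 L, v h * f₁ x h - c₀) ^ j =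
        ∑ i ∈ range (j + 1), (j.choose i : ℝ) * (-c₀) ^ (j - i) *
          ∑ g ∈ G i, (∏ l, v (g l)) * ∏ l, f₁ x (g l) := by
      intro x _
      rw [sub_eq_add_neg, add_pow]
      refine sum_congr rfl fun i _ => ?_
      rw [Pool.Agent.Y340.GM.pow_expand]
      have : ∀ g ∈ G i, ∏ l, v (g l) * f₁ x (g l) = (∏ l, v (g l)) * ∏ l, f₁ x (g l) :=
        fun g _ => prod_mul_distrib
      rw [sum_congr rfl this]
      ring
    rw [sum_congr rfl this, sum_comm]
    refine sum_congr rfl fun i _ => ?_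
    rw [← mul_sum, sum_comm]
    congr 1
    refine sum_congr rfl fun g _ => ?_
    rw [mul_sum]
  have e2 : ∑ x ∈ Om, ∑ U ∈ (Ioc 0 L).powerset,
      pw d L U * (∑ h ∈ Ioc 0 L, v h * sg U h * f₂ x h - c₀) ^ j =
      ∑ i ∈ range (j + 1), (j.choose i : ℝ) * (-c₀) ^ (j - i) *
        ∑ g ∈ G i, (∏ l, v (g l)) * (d ^ (odd g).card * ∑ x ∈ Om, ∏ l, f₂ x (g l)) := by
    have : ∀ x ∈ Om, ∑ U ∈ (Ioc 0 L).powerset,
        pw d L U * (∑ h ∈ Ioc 0 L, v h * sg U h * f₂ x h - c₀) ^ j =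
        ∑ i ∈ range (j + 1), (j.choose i : ℝ) * (-c₀) ^ (j - i) *
          ∑ g ∈ G i, (∏ l, v (g l)) * (d ^ (odd g).card * ∏ l, f₂ x (g l)) := by
      intro x _
      have h3 : ∀ U ∈ (Ioc 0 L).powerset,
          pw d L U * (∑ h ∈ Ioc 0 L, v h * sg U h * f₂ x h - c₀) ^ j =
          ∑ i ∈ range (j + 1), (j.choose i : ℝ) * (-c₀) ^ (j - i) *
            ∑ g ∈ G i, (∏ l, v (g l)) * ((pw d L U * ∏ l, sg U (g l)) * ∏ l, f₂ x (g l)) := by
        intro U _
        rw [sub_eq_add_neg, add_pow, mul_sum]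
        refine sum_congr rfl fun i _ => ?_
        rw [Pool.Agent.Y340.GM.pow_expand, sum_mul, sum_mul, mul_sum, mul_sum]
        refine sum_congr rfl fun g _ => ?_
        rw [prod_mul_distrib, prod_mul_distrib]
        ring
      rw [sum_congr rfl h3, sum_comm]
      refine sum_congr rfl fun i _ => ?_
      rw [← mul_sum, sum_comm]
      congr 1
      refine sum_congr rfl fun g hg => ?_
      rw [← mul_sum, ← sum_mul, t_RAD1 d L i g (hGm i g hg)]
    rw [sum_congr rfl this, sum_comm]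
    refine sum_congr rfl fun i _ => ?_
    rw [← mul_sum, sum_comm]
    congr 1
    refine sum_congr rfl fun g _ => ?_
    rw [mul_sum, mul_sum]
  rw [e1, e2, ← sum_sub_distrib]
  have key : ∀ i ∈ range (j + 1), |(j.choose i : ℝ) * (-c₀) ^ (j - i) *
        ∑ g ∈ G i, (∏ l, v (g l)) * ∑ x ∈ Om, ∏ l, f₁ x (g l) -
      (j.choose i : ℝ) * (-c₀) ^ (j - i) *
        ∑ g ∈ G i, (∏ l, v (g l)) * (d ^ (odd g).card * ∑ x ∈ Om, ∏ l, f₂ x (g l))| ≤
      (C * L) ^ i * |c₀| ^ (j - i) * (j.choose i : ℝ) * η := by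
    intro i hi
    have hij : i ≤ j := Nat.lt_succ_iff.1 (mem_range.1 hi)
    rw [← mul_sub, ← sum_sub_distrib, abs_mul, abs_mul, abs_pow, abs_neg, Nat.abs_cast]
    have h4 : |∑ g ∈ G i, ((∏ l, v (g l)) * ∑ x ∈ Om, ∏ l, f₁ x (g l) -
        (∏ l, v (g l)) * (d ^ (odd g).card * ∑ x ∈ Om, ∏ l, f₂ x (g l)))| ≤
        (C * L) ^ i * η := by
      calc |∑ g ∈ G i, ((∏ l, v (g l)) * ∑ x ∈ Om, ∏ l, f₁ x (g l) -
            (∏ l, v (g l)) * (d ^ (odd g).card * ∑ x ∈ Om, ∏ l, f₂ x (g l)))|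
          ≤ ∑ g ∈ G i, C ^ i * η := by
            refine (abs_sum_le_sum_abs _ _).trans (sum_le_sum fun g hg => ?_)
            rw [← mul_sub, abs_mul]
            have h1 : |∏ l, v (g l)| ≤ C ^ i := by
              rw [abs_prod]
              calc ∏ l, |v (g l)| ≤ ∏ _l : Fin i, C :=
                    prod_le_prod (fun l _ => abs_nonneg _) (fun l _ => hv _)
                _ = C ^ i := by simp
            exact mul_le_mul h1 (h i hij g (hGm i g hg)) (abs_nonneg _) (pow_nonneg hC _)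
        _ = (C * L) ^ i * η := by
            rw [sum_const, hG]
            simp only [Fintype.card_piFinset, Nat.card_Ioc, Nat.sub_zero, prod_const, card_univ,
              Fintype.card_fin, nsmul_eq_mul]
            push_cast
            rw [mul_pow]
            ring
    calc (j.choose i : ℝ) * |c₀| ^ (j - i) *
          |∑ g ∈ G i, ((∏ l, v (g l)) * ∑ x ∈ Om, ∏ l, f₁ x (g l) -
            (∏ l, v (g l)) * (d ^ (odd g).card * ∑ x ∈ Om, ∏ l, f₂ x (g l)))|
        ≤ (j.choose i : ℝ) * |c₀| ^ (j - i) * ((C * L) ^ i * η) :=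
          mul_le_mul_of_nonneg_left h4 (by positivity)
      _ = (C * L) ^ i * |c₀| ^ (j - i) * (j.choose i : ℝ) * η := by ring
  calc |∑ i ∈ range (j + 1), ((j.choose i : ℝ) * (-c₀) ^ (j - i) *
          ∑ g ∈ G i, (∏ l, v (g l)) * ∑ x ∈ Om, ∏ l, f₁ x (g l) -
        (j.choose i : ℝ) * (-c₀) ^ (j - i) *
          ∑ g ∈ G i, (∏ l, v (g l)) * (d ^ (odd g).card * ∑ x ∈ Om, ∏ l, f₂ x (g l)))|
      ≤ ∑ i ∈ range (j + 1), (C * L) ^ i * |c₀| ^ (j - i) * (j.choose i : ℝ) * η :=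
        (abs_sum_le_sum_abs _ _).trans (sum_le_sum key)
    _ = (C * L + |c₀|) ^ j * η := by
        rw [← sum_mul, add_pow]

end Pool.Agent.H61.TM
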