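import Pool.Agent.H19.TM.Stm
import Pool.Graph.R_pool_sql_team_seeded_1acbe0a2.Y862.GM.All

/-!
# Project TM: Mertens for `V` (module VV)
-/

set_option autoImplicit false

namespace Pool.Agent.H61.TM

open Finset Pool.Agent.Y862.GM Pool.Agent.H19.TM

lemma exp_le_one_sub {x : ℝ} (h0 : 0 ≤ x) (h1 : x ≤ 1 / 2) : Real.exp (-(x + x ^ 2)) ≤ 1 - x := by
  have h2 : 0 ≤ x + x ^ 2 := by positivity
  have h3 := Real.quadratic_le_exp_of_nonneg h2
  have h4 : 1 ≤ (1 - x) * Real.exp (x + x ^ 2) := by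
    have h5 : (1 - x) * (1 + (x + x ^ 2) + (x + x ^ 2) ^ 2 / 2) ≤ (1 - x) * Real.exp (x + x ^ 2) :=
      mul_le_mul_of_nonneg_left h3 (by linarith)
    have h6 : 1 ≤ (1 - x) * (1 + (x + x ^ 2) + (x + x ^ 2) ^ 2 / 2) := by
      have h7 : (1 - x) * (1 + (x + x ^ 2) + (x + x ^ 2) ^ 2 / 2) - 1 =
          x ^ 2 * ((1 - x) * (1 + x) ^ 2 / 2 - x) := by ring
      have h8 : 0 ≤ (1 - x) * (1 + x) ^ 2 / 2 - x := by
        nlinarith [mul_nonneg h0 h0, mul_nonneg h0 (sub_nonneg.2 h1)]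
      have h9 : 0 ≤ x ^ 2 * ((1 - x) * (1 + x) ^ 2 / 2 - x) := mul_nonneg (sq_nonneg x) h8
      linarith
    linarith
  rw [Real.exp_neg]
  have h6 := Real.exp_pos (x + x ^ 2)
  rw [inv_le_iff_one_le_mul₀ h6]
  exact h4

lemma sum_inv_sq (y : ℕ) : ∑ p ∈ pr y, (1 : ℝ) / (p : ℝ) ^ 2 ≤ 1 := by
  rcases Nat.eq_zero_or_pos y with rfl | hy
  · have : pr 0 = ∅ := by decide
    rw [this]
    simp
  have h1 : pr y ⊆ Ioc 1 y := by
    intro p hp
    unfold pr at hp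
    rw [mem_filter, mem_range] at hp
    rw [mem_Ioc]
    exact ⟨hp.2.one_lt, by omega⟩
  have h2 := sum_Ioc_inv_sq_le_sub (α := ℝ) one_ne_zero hy
  calc ∑ p ∈ pr y, (1 : ℝ) / (p : ℝ) ^ 2 ≤ ∑ p ∈ Ioc 1 y, (1 : ℝ) / (p : ℝ) ^ 2 :=
        sum_le_sum_of_subset_of_nonneg h1 (fun _ _ _ => by positivity)
    _ = ∑ p ∈ Ioc 1 y, ((p : ℝ) ^ 2)⁻¹ := sum_congr rfl fun p _ => one_div _
    _ ≤ ((1 : ℕ) : ℝ)⁻¹ - (y : ℝ)⁻¹ := h2
    _ ≤ 1 := by
        have : (0 : ℝ) ≤ (y : ℝ)⁻¹ := by positivity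
        simp only [Nat.cast_one, inv_one]
        linarith

theorem t_VV : S_VV := by
  obtain ⟨C, hC⟩ := Pool.Agent.Y862.GM.mert
  refine ⟨Real.exp (-(2 * (C + 1))), Real.exp (2 * C), Real.exp_pos _, Real.exp_pos _, ?_⟩
  intro y hy
  have hy3 : (3 : ℝ) ≤ y := by exact_mod_cast hy
  have hlog : 1 < Real.log y := by
    rw [Real.lt_log_iff_exp_lt (by linarith)]
    exact lt_of_lt_of_le Real.exp_one_lt_three hy3
  have hlog0 : 0 < Real.log y := by linarith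
  have hexp : Real.exp (2 * Real.log (Real.log y)) = Real.log y ^ 2 := by
    rw [two_mul, Real.exp_add, Real.exp_log hlog0, sq]
  have hm := abs_le.1 (hC y hy)
  have hpr : ∀ p ∈ pr y, p.Prime := by
    intro p hp
    unfold pr at hp
    exact (mem_filter.1 hp).2
  have hx : ∀ p ∈ pr y, (0 : ℝ) ≤ 1 / (p : ℝ) ∧ 1 / (p : ℝ) ≤ 1 / 2 := by
    intro p hp
    have h2 : (2 : ℝ) ≤ p := by exact_mod_cast (hpr p hp).two_le
    exact ⟨by positivity, one_div_le_one_div_of_le (by norm_num) h2⟩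
  constructor
  · have h1 : Real.exp (-(2 * ∑ p ∈ pr y, (1 / (p : ℝ) + 1 / (p : ℝ) ^ 2))) ≤ V (pr y) := by
      unfold V
      rw [mul_sum, ← sum_neg_distrib, Real.exp_sum]
      refine prod_le_prod (fun _ _ => (Real.exp_pos _).le) fun p hp => ?_
      have h3 := exp_le_one_sub (hx p hp).1 (hx p hp).2
      have h4 : Real.exp (-(2 * (1 / (p : ℝ) + 1 / (p : ℝ) ^ 2))) =
          Real.exp (-(1 / (p : ℝ) + (1 / (p : ℝ)) ^ 2)) ^ 2 := by
        rw [← Real.exp_nat_mul]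
        congr 1
        push_cast
        rw [one_div_pow]
        ring
      rw [h4]
      exact pow_le_pow_left₀ (Real.exp_pos _).le h3 2
    refine le_trans ?_ h1
    rw [div_eq_mul_inv, ← hexp, ← Real.exp_neg, ← Real.exp_add]
    apply Real.exp_le_exp.2
    rw [sum_add_distrib]
    have h5 := sum_inv_sq y
    linarith [hm.2]
  · have h1 : V (pr y) ≤ Real.exp (-(2 * ∑ p ∈ pr y, 1 / (p : ℝ))) := by
      unfold V
      rw [mul_sum, ← sum_neg_distrib, Real.exp_sum]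
      refine prod_le_prod (fun _ _ => sq_nonneg _) fun p hp => ?_
      have h3 : 1 - 1 / (p : ℝ) ≤ Real.exp (-(1 / (p : ℝ))) := by
        have := Real.add_one_le_exp (-(1 / (p : ℝ)))
        linarith
      have h4 : Real.exp (-(2 * (1 / (p : ℝ)))) = Real.exp (-(1 / (p : ℝ))) ^ 2 := by
        rw [← Real.exp_nat_mul]
        congr 1
        push_cast
        ring
      rw [h4]
      have h5 := (hx p hp).2
      exact pow_le_pow_left₀ (by linarith) h3 2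
    refine h1.trans ?_
    rw [div_eq_mul_inv, ← hexp, ← Real.exp_neg, ← Real.exp_add]
    apply Real.exp_le_exp.2
    linarith [hm.1]

end Pool.Agent.H61.TM
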