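import Pool.Agent.H19.TM.Stm3
import Pool.Agent.H19.TM.VarFar

/-!
# Project TM3: the modules F2 and E2
-/

set_option autoImplicit false

namespace Pool.Agent.H61.TM

open Finset Pool.Agent.Y862.GM Pool.Agent.H19.TM

/-- **F2** -/
theorem t_F2 (hR : S_REC) (hC : S_CNT) (hS : S_SIG) : S_F2 := by
  intro P hP p hp hpP N hN
  obtain ⟨-, -, hW⟩ := hS
  obtain ⟨hW0, hW1⟩ := hW P hP
  have hp1 : 1 ≤ p := hp.one_lt.le
  have hp2 : p ≤ p ^ 2 := by nlinarith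
  have hsmall : ∀ c : ℕ, c ≤ 1 → Wv P c = c * (sig P - V P ^ 2) := by
    intro c hc
    interval_cases c
    · rw [hW0]; simp
    · rw [hW1]; simp
  have hsum : ∀ M : ℕ, 1 ≤ M → N ≤ M → ∑ a ∈ range M, Wv P (cnt M a N) = N * (sig P - V P ^ 2) := by
    intro M hM hNM
    have h1 : ∀ a ∈ range M, Wv P (cnt M a N) = (cnt M a N : ℝ) * (sig P - V P ^ 2) :=
      fun a _ => hsmall _ (cnt_le_one M a N hNM)
    rw [sum_congr rfl h1, ← sum_mul]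
    congr 1
    have h2 := (hC M N hM).1
    exact_mod_cast h2
  have h1 := (hC p N hp1).2.2.2.2.2 hN
  have h2 := (hC (p ^ 2) N (by nlinarith)).2.2.2.2.2 (hN.trans hp2)
  rw [hR P hP p hp hpP N, hsum p hp1 hN, hsum (p ^ 2) (by nlinarith) (hN.trans hp2), h1, h2, sig_insert hpP]
  have hp0 : (0 : ℝ) < p := by exact_mod_cast hp.pos
  obtain ⟨x, hx⟩ : ∃ x : ℝ, x = 1 / (p : ℝ) := ⟨_, rfl⟩
  have e1 : 4 / (p : ℝ) = 4 * x := by rw [hx]; ring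
  have e2 : 2 / (p : ℝ) ^ 2 = 2 * x ^ 2 := by rw [hx]; ring
  have e3 : 4 / (p : ℝ) ^ 2 = 4 * x ^ 2 := by rw [hx]; ring
  have e4 : 1 / (p : ℝ) ^ 2 = x ^ 2 := by rw [hx]; ring
  have e5 : (N : ℝ) / (p : ℝ) = N * x := by rw [hx]; ring
  have e6 : (N : ℝ) / ((p ^ 2 : ℕ) : ℝ) = N * x ^ 2 := by rw [hx]; push_cast; ring
  have e8 : 4 / (p : ℝ) ^ 3 = 4 * x ^ 3 := by rw [hx]; ring
  have e9 : 1 / (p : ℝ) ^ 4 = x ^ 4 := by rw [hx]; ring
  rw [e1, e2, e3, e4, e5, e6, e8, e9]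
  have e7 : (N : ℝ) * (1 - N * x ^ 2) / (p : ℝ) ^ 2 = (N : ℝ) * (1 - N * x ^ 2) * x ^ 2 := by
    rw [div_eq_mul_one_div, e4]
  rw [e7]
  ring

lemma Gd_zero (P : Finset ℕ) : Gd P 0 = 0 := by
  unfold Gd
  simp

lemma Gd_one (P : Finset ℕ) : Gd P 1 = V P ^ 2 := by
  have h : (Icc 1 1).filter (fun n : ℕ => n.primeFactors ⊆ P) = {1} := by
    ext n
    simp only [mem_filter, mem_Icc, mem_singleton]
    constructor
    · rintro ⟨⟨h1, h2⟩, -⟩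
      omega
    · rintro rfl
      simp
  unfold Gd
  rw [h]
  simp [tau4]

/-- the recursion for `Gd` at a prime at least `N` -/
lemma Gd_far (hG : S_G1) {P : Finset ℕ} (hP : ∀ q ∈ P, q.Prime) {p : ℕ} (hp : p.Prime) (hpP : p ∉ P)
    {N : ℕ} (hN1 : 1 ≤ N) (hN : N ≤ p) :
    Gd (insert p P) N = (1 - 1 / (p : ℝ)) ^ 4 * (Gd P N + 4 / (p : ℝ) * Gd P (N / p)) := by
  rw [hG P hP p hp hpP N]
  congr 1
  have h2 : range 2 ⊆ range (N + 1) := range_subset_range.2 (by omega)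
  rw [← sum_subset h2]
  · rw [sum_range_succ, sum_range_succ, sum_range_zero]
    norm_num [Nat.choose]
  · intro k _ hk2
    rw [mem_range, not_lt] at hk2
    have h3 : N / p ^ k = 0 := by
      apply Nat.div_eq_of_lt
      have h4 : p ^ 2 ≤ p ^ k := Nat.pow_le_pow_right hp.pos hk2
      have := hp.one_lt
      nlinarith
    rw [h3, Gd_zero, mul_zero]

/-- **E2** -/
theorem t_E2 (hF : S_F2) (hG : S_G1) (hG2 : S_G2) (hS : S_SIG) : S_E2 := by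
  refine ⟨13, by norm_num, ?_⟩
  intro P hP p hp hpP hp5 N hN1 hN
  have hp0 : (0 : ℝ) < p := by exact_mod_cast hp.pos
  have hN0 : (0 : ℝ) < N := by exact_mod_cast hN1
  obtain ⟨x, hx⟩ : ∃ x : ℝ, x = 1 / (p : ℝ) := ⟨_, rfl⟩
  have hx0 : 0 < x := by rw [hx]; positivity
  have hx5 : x ≤ 1 / 5 := by
    rw [hx]
    apply one_div_le_one_div_of_le (by norm_num)
    exact_mod_cast hp5
  obtain ⟨hs1, hs2⟩ := hS.1 P hP
  have hG0 := (hG2.1 P hP N).1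
  have hG1 := (hG2.1 P hP N).2
  have hf := hF P hP p hp hpP N hN
  have hg := Gd_far hG hP hp hpP hN1 hN
  have e1 : 4 / (p : ℝ) = 4 * x := by rw [hx]; ring
  have e2 : 2 / (p : ℝ) ^ 2 = 2 * x ^ 2 := by rw [hx]; ring
  have e3 : 4 / (p : ℝ) ^ 2 = 4 * x ^ 2 := by rw [hx]; ring
  have e8 : 4 / (p : ℝ) ^ 3 = 4 * x ^ 3 := by rw [hx]; ring
  have e9 : 1 / (p : ℝ) ^ 4 = x ^ 4 := by rw [hx]; ring
  have e10 : (13 : ℝ) / (p : ℝ) ^ 2 = 13 * x ^ 2 := by rw [hx]; ring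
  have e11 : 13 * V P ^ 2 * N / (p : ℝ) ^ 2 = 13 * (V P ^ 2 * N * x ^ 2) := by rw [hx]; ring
  rw [e1, e2, e3, e8, e9] at hf
  rw [e1, ← hx] at hg
  rw [e10, e11]
  have hpN : (1 : ℝ) - x ^ 2 ≥ 24 / 25 := by nlinarith
  -- the term `B`
  have hB : 0 ≤ 4 * x * Gd P (N / p) ∧ 4 * x * Gd P (N / p) ≤ 4 * (V P ^ 2 * N * x ^ 2) := by
    rcases hN.lt_or_eq with h | h
    · rw [Nat.div_eq_of_lt h, Gd_zero]
      constructor
      · simp
      · rw [mul_zero]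
        positivity
    · rw [h, Nat.div_self hp.pos, Gd_one]
      have : (p : ℝ) * x = 1 := by rw [hx]; field_simp
      constructor
      · positivity
      · have e : V P ^ 2 * (p : ℝ) * x ^ 2 = V P ^ 2 * x * ((p : ℝ) * x) := by ring
        rw [e, this]
        linarith
  obtain ⟨T, hT⟩ : ∃ T : ℝ, T = V P ^ 2 * N * x ^ 2 := ⟨_, rfl⟩
  have hT0 : 0 ≤ T := by rw [hT]; positivity
  rw [← hT] at hB ⊢
  obtain ⟨B, hBB⟩ : ∃ B : ℝ, B = 4 * x * Gd P (N / p) := ⟨_, rfl⟩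
  rw [← hBB] at hB hg
  -- the recursion for `Fd`
  have hsN : 0 < sig P * N := by positivity
  have hFd : (1 - x ^ 2) * Fd (insert p P) N = (1 - 4 * x + 2 * x ^ 2) * Fd P N +
      T * (4 - 4 * x + x ^ 2) / sig P := by
    have hD : (1 - x ^ 2) * sig P * N - Wv (insert p P) N = (1 - 4 * x + 2 * x ^ 2) * (sig P * N - Wv P N) +
        V P ^ 2 * (N : ℝ) ^ 2 * (4 * x ^ 2 - 4 * x ^ 3 + x ^ 4) := by
      have e12 : sig (insert p P) = (1 - x ^ 2) * sig P := by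
        rw [sig_insert hpP, hx]
        ring
      rw [e12] at hf
      exact hf
    have e12 : sig (insert p P) = (1 - x ^ 2) * sig P := by
      rw [sig_insert hpP, hx]
      ring
    unfold Fd
    rw [e12]
    have hx2 : (1 : ℝ) - x ^ 2 ≠ 0 := by linarith
    have hs : sig P ≠ 0 := by linarith
    have hN' : (N : ℝ) ≠ 0 := hN0.ne'
    rw [hT]
    field_simp
    linarith [hD]
  obtain ⟨F, hFF⟩ : ∃ F : ℝ, F = Fd P N := ⟨_, rfl⟩
  obtain ⟨F', hFF'⟩ : ∃ F' : ℝ, F' = Fd (insert p P) N := ⟨_, rfl⟩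
  obtain ⟨G, hGG⟩ : ∃ G : ℝ, G = Gd P N := ⟨_, rfl⟩
  unfold Ed
  rw [hg, ← hFF', ← hFF, ← hGG]
  rw [← hFF', ← hFF] at hFd
  rw [← hGG] at hG0 hG1
  -- bounds
  have hA : 0 ≤ T * (4 - 4 * x + x ^ 2) / sig P ∧ T * (4 - 4 * x + x ^ 2) / sig P ≤ 8 * T := by
    constructor
    · apply div_nonneg _ (by linarith)
      exact mul_nonneg hT0 (by nlinarith)
    · rw [div_le_iff₀ (by linarith)]
      have a1 : T * (4 - 4 * x + x ^ 2) ≤ T * 4 := mul_le_mul_of_nonneg_left (by nlinarith) hT0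
      nlinarith
  obtain ⟨A, hAA⟩ : ∃ A : ℝ, A = T * (4 - 4 * x + x ^ 2) / sig P := ⟨_, rfl⟩
  rw [← hAA] at hFd hA
  -- `(1 - x ^ 2) * E' = (1 - 4 x + 2 x ^ 2) * E + ...`
  have hE : (1 - x ^ 2) * (F' - (1 - x) ^ 4 * (G + B)) = (1 - 4 * x + 2 * x ^ 2) * (F - G) +
      (-3 * x ^ 2 + 5 * x ^ 4 - 4 * x ^ 5 + x ^ 6) * G + A - (1 - x ^ 2) * (1 - x) ^ 4 * B := by
    rw [mul_sub, hFd]
    ring
  have hq0 : 0 ≤ 1 - 4 * x + 2 * x ^ 2 := by nlinarith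
  have hq1 : 1 - 4 * x + 2 * x ^ 2 ≤ 1 - x ^ 2 := by nlinarith
  have b1 : |(1 - 4 * x + 2 * x ^ 2) * (F - G)| ≤ (1 - x ^ 2) * |F - G| := by
    rw [abs_mul, abs_of_nonneg hq0]
    exact mul_le_mul_of_nonneg_right hq1 (abs_nonneg _)
  have b2 : |(-3 * x ^ 2 + 5 * x ^ 4 - 4 * x ^ 5 + x ^ 6) * G| ≤ 4 * x ^ 2 := by
    have c1 : |-3 * x ^ 2 + 5 * x ^ 4 - 4 * x ^ 5 + x ^ 6| ≤ 4 * x ^ 2 := by
      have d1 : 0 ≤ x ^ 2 := by positivity
      have d2 : x ^ 4 ≤ x ^ 2 / 25 := by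
        have : x ^ 4 = x ^ 2 * x ^ 2 := by ring
        nlinarith
      have d3 : 0 ≤ x ^ 4 := by positivity
      have d4 : 0 ≤ x ^ 5 := by positivity
      have d5 : x ^ 5 ≤ x ^ 4 := by
        have : x ^ 5 = x ^ 4 * x := by ring
        nlinarith
      have d6 : 0 ≤ x ^ 6 := by positivity
      have d7 : x ^ 6 ≤ x ^ 4 := by
        have : x ^ 6 = x ^ 4 * x ^ 2 := by ring
        nlinarith
      rw [abs_le]
      constructor <;> nlinarith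
    rw [abs_mul, abs_of_nonneg hG0]
    calc _ ≤ 4 * x ^ 2 * 1 := mul_le_mul c1 hG1 hG0 (by positivity)
      _ = _ := mul_one _
  have b3 : |A| ≤ 8 * T := by
    rw [abs_of_nonneg hA.1]
    exact hA.2
  have b4 : |(1 - x ^ 2) * (1 - x) ^ 4 * B| ≤ 4 * T := by
    have c0 : 0 ≤ (1 - x ^ 2) * (1 - x) ^ 4 := by
      apply mul_nonneg (by linarith)
      positivity
    have c1 : (1 - x ^ 2) * (1 - x) ^ 4 ≤ 1 := by
      have : (1 - x) ^ 4 ≤ 1 := pow_le_one₀ (by linarith) (by linarith)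
      have h0 : 0 ≤ (1 - x) ^ 4 := by positivity
      nlinarith [sq_nonneg x]
    rw [abs_of_nonneg (mul_nonneg c0 hB.1)]
    calc _ ≤ 1 * B := mul_le_mul_of_nonneg_right c1 hB.1
      _ ≤ _ := by rw [one_mul]; exact hB.2
  have b5 : (1 - x ^ 2) * |F' - (1 - x) ^ 4 * (G + B)| ≤ (1 - x ^ 2) * |F - G| + 4 * x ^ 2 + 8 * T + 4 * T := by
    have : (1 - x ^ 2) * |F' - (1 - x) ^ 4 * (G + B)| = |(1 - x ^ 2) * (F' - (1 - x) ^ 4 * (G + B))| := by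
      rw [abs_mul, abs_of_nonneg (by linarith : (0 : ℝ) ≤ 1 - x ^ 2)]
    rw [this, hE]
    calc _ ≤ |(1 - 4 * x + 2 * x ^ 2) * (F - G) +
          (-3 * x ^ 2 + 5 * x ^ 4 - 4 * x ^ 5 + x ^ 6) * G + A| + |(1 - x ^ 2) * (1 - x) ^ 4 * B| := abs_sub _ _
      _ ≤ |(1 - 4 * x + 2 * x ^ 2) * (F - G) +
          (-3 * x ^ 2 + 5 * x ^ 4 - 4 * x ^ 5 + x ^ 6) * G| + |A| + |(1 - x ^ 2) * (1 - x) ^ 4 * B| := by
          gcongr
          exact abs_add_le _ _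
      _ ≤ |(1 - 4 * x + 2 * x ^ 2) * (F - G)| +
          |(-3 * x ^ 2 + 5 * x ^ 4 - 4 * x ^ 5 + x ^ 6) * G| + |A| + |(1 - x ^ 2) * (1 - x) ^ 4 * B| := by
          gcongr
          exact abs_add_le _ _
      _ ≤ _ := by linarith
  have b6 : (1 - x ^ 2) * |F' - (1 - x) ^ 4 * (G + B)| ≤ (1 - x ^ 2) * (|F - G| + 13 * x ^ 2 + 13 * T) := by
    have : 4 * x ^ 2 + 12 * T ≤ (1 - x ^ 2) * (13 * x ^ 2 + 13 * T) := by
      have h1 : 0 ≤ 13 * x ^ 2 + 13 * T := by positivity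
      nlinarith [sq_nonneg x]
    linarith
  exact le_of_mul_le_mul_left b6 (by linarith)

end Pool.Agent.H61.TM
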